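import Mathlib

/-!
# MP_31ab2b: the pointwise kernel-ratio condition fails for the unit-arrow random walk

Random walk in the i.i.d. field of uniform unit arrows.  We write out the notion
`Homogenizes` of the problem (averaged central limit theorem with isotropic positive
diffusivity, and convergence in measure of the ratio of the quenched kernel to the
averaged kernel, uniformly for `|x| <= C * sqrt n`), and show that it fails for every
dimension and every `ε` in `(0, 1/(2d))`: already at the sites `|x| <= 1` the ratio stays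
away from `1` with probability bounded below.
-/

open MeasureTheory Filter ProbabilityTheory
open scoped ENNReal NNReal Topology BoundedContinuousFunction

namespace Pool.Agent.Results.MP_31ab2b_pr.PointwiseKernelRatio

/-- Sites of the lattice `ℤ^d`. -/
abbrev Site (d : ℕ) := Fin d → ℤ

/-- Labels of the `2d` unit arrows. -/
abbrev Arrow (d : ℕ) := Fin d × Bool

/-- The unit vector `+e_i` (for `(i, true)`) or `-e_i` (for `(i, false)`). -/
def vec {d : ℕ} (a : Arrow d) : Site d := Pi.single a.1 (if a.2 then 1 else -1)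

/-- An environment: one arrow at every site. -/
abbrev Env (d : ℕ) := Site d → Arrow d

/-- The law of the environment: independent uniform arrows. -/
noncomputable def envLaw (d : ℕ) [NeZero d] : Measure (Env d) :=
  Measure.infinitePi (fun _ : Site d => uniformOn (Set.univ : Set (Arrow d)))

open Classical in
/-- One-step transition probability `p(x,z,ω)` from `x` to `z`. -/
noncomputable def trans {d : ℕ} (ε : ℝ) (ω : Env d) (x z : Site d) : ℝ :=
  if x - z = vec (ω x) then 1 - (2 * d - 1) * ε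
  else if ∃ a : Arrow d, x - z = vec a then ε else 0

open Classical in
/-- The quenched kernel `p_ω(n,x)` of the walk started at the origin. -/
noncomputable def kern {d : ℕ} (ε : ℝ) (ω : Env d) : ℕ → Site d → ℝ
  | 0, x => if x = 0 then 1 else 0
  | n + 1, x => ∑' z : Site d, kern ε ω n z * trans ε ω z x

/-- The averaged kernel `m_1(n,x)`. -/
noncomputable def avgKern (d : ℕ) [NeZero d] (ε : ℝ) (n : ℕ) (x : Site d) : ℝ :=
  ∫ ω, kern ε ω n x ∂(envLaw d)

/-- Condition (i): under the averaged law `X_n / √n` converges in law to a centred Gaussian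
with covariance `s * I_d` for some `s > 0`. -/
def AveragedCLT (d : ℕ) [NeZero d] (ε : ℝ) : Prop :=
  ∃ s : ℝ≥0, 0 < s ∧ ∀ f : (Fin d → ℝ) →ᵇ ℝ,
    Tendsto (fun n : ℕ => ∑' x : Site d, avgKern d ε n x * f (fun i => (x i : ℝ) / √(n : ℝ)))
      atTop (𝓝 (∫ y, f y ∂(Measure.pi fun _ : Fin d => gaussianReal 0 s)))

/-- The environments for which `p_ω(n,x) / m_1(n,x)` differs from `1` by more than `δ`. -/
def badSet (d : ℕ) [NeZero d] (ε δ : ℝ) (n : ℕ) (x : Site d) : Set (Env d) :=
  {ω | δ < |kern ε ω n x / avgKern d ε n x - 1|}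

/-- Condition (ii): `p_ω(n,x) / m_1(n,x) → 1` in measure, uniformly over
`|x| ≤ C √n` with `m_1(n,x) > 0`. -/
def KernelRatio (d : ℕ) [NeZero d] (ε : ℝ) : Prop :=
  ∀ C > (0 : ℝ), ∀ δ > (0 : ℝ),
    Tendsto (fun n : ℕ => ⨆ x ∈ {x : Site d | √(∑ i, (x i : ℝ) ^ 2) ≤ C * √(n : ℝ) ∧
      0 < avgKern d ε n x}, envLaw d (badSet d ε δ n x)) atTop (𝓝 0)

/-- The model homogenizes for the given `d` and `ε`. -/
def Homogenizes (d : ℕ) [NeZero d] (ε : ℝ) : Prop :=
  AveragedCLT d ε ∧ KernelRatio d ε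

/-! ### Elementary facts -/

lemma vec_injective {d : ℕ} : Function.Injective (vec : Arrow d → Site d) := by
  rintro ⟨i, b⟩ ⟨j, c⟩ h
  have h1 : vec (i, b) i = vec (j, c) i := by rw [h]
  have hij : i = j := by
    by_contra hne
    simp only [vec, Pi.single_eq_same] at h1
    rw [Pi.single_eq_of_ne hne] at h1
    split_ifs at h1 <;> omega
  subst hij
  simp only [vec, Pi.single_eq_same] at h1
  cases b <;> cases c <;> simp_all

/-- The opposite arrow. -/
def opp {d : ℕ} (a : Arrow d) : Arrow d := (a.1, !a.2)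

lemma vec_opp {d : ℕ} (a : Arrow d) : vec a + vec (opp a) = 0 := by
  rcases a with ⟨i, b⟩
  simp only [vec, opp]
  rw [← Pi.single_add]
  cases b <;> simp

lemma opp_ne {d : ℕ} (a : Arrow d) : opp a ≠ a := by
  rcases a with ⟨i, b⟩
  simp [opp]

lemma trans_nbr {d : ℕ} (ε : ℝ) (ω : Env d) (x : Site d) (a : Arrow d) :
    trans ε ω (x + vec a) x = if ω (x + vec a) = a then 1 - (2 * d - 1) * ε else ε := by
  unfold trans
  rw [add_sub_cancel_left]
  by_cases h : ω (x + vec a) = a
  · rw [if_pos h, h, if_pos rfl]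
  · rw [if_neg h, if_neg (fun h' => h (vec_injective h').symm), if_pos ⟨a, rfl⟩]

lemma kern_succ {d : ℕ} (ε : ℝ) (ω : Env d) (n : ℕ) (x : Site d) :
    kern ε ω (n + 1) x = ∑ a : Arrow d, kern ε ω n (x + vec a) *
      (if ω (x + vec a) = a then 1 - (2 * d - 1) * ε else ε) := by
  classical
  have hinj : Function.Injective (fun a : Arrow d => x + vec a) :=
    fun a b h => vec_injective (add_left_cancel h)
  rw [kern, tsum_eq_sum (s := Finset.univ.image (fun a : Arrow d => x + vec a))]
  · rw [Finset.sum_image (fun a _ b _ h => hinj h)]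
    exact Finset.sum_congr rfl (fun a _ => by rw [trans_nbr])
  · intro z hz
    have hz' : ∀ a : Arrow d, z - x ≠ vec a := by
      intro a ha
      apply hz
      rw [Finset.mem_image]
      exact ⟨a, Finset.mem_univ _, by rw [← ha]; abel⟩
    have : trans ε ω z x = 0 := by
      unfold trans
      rw [if_neg (hz' _), if_neg (fun ⟨a, ha⟩ => hz' a ha)]
    rw [this, mul_zero]

lemma kern_measurable {d : ℕ} (ε : ℝ) (n : ℕ) :
    ∀ x : Site d, Measurable (fun ω : Env d => kern ε ω n x) := by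
  induction n with
  | zero => intro x; simp only [kern]; exact measurable_const
  | succ n ih =>
    intro x
    simp only [kern_succ]
    refine Finset.measurable_sum _ (fun a _ => (ih _).mul ?_)
    have hg : Measurable (fun b : Arrow d => if b = a then 1 - (2 * (d : ℝ) - 1) * ε else ε) :=
      Measurable.of_discrete
    exact hg.comp (measurable_pi_apply (x + vec a))

section bounds

variable {d : ℕ} [NeZero d] {ε : ℝ} (h0 : 0 < ε) (h1 : ε < 1 / (2 * d))

include h0 h1

lemma d_ge : (1 : ℝ) ≤ d := by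
  exact_mod_cast NeZero.one_le (n := d)

lemma K_gt : ε < 1 - (2 * d - 1) * ε := by
  have hd : (0 : ℝ) < 2 * d := by have := d_ge (d := d) h0 h1; linarith
  have := (lt_div_iff₀ hd).1 h1
  nlinarith

lemma K_le : 1 - (2 * (d : ℝ) - 1) * ε ≤ 1 := by
  have := d_ge (d := d) h0 h1
  nlinarith

lemma w_ge (ω : Env d) (z : Site d) (a : Arrow d) :
    ε ≤ (if ω z = a then 1 - (2 * (d : ℝ) - 1) * ε else ε) := by
  split_ifs
  · exact (K_gt h0 h1).le
  · exact le_rfl

lemma w_le (ω : Env d) (z : Site d) (a : Arrow d) :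
    (if ω z = a then 1 - (2 * (d : ℝ) - 1) * ε else ε) ≤ 1 := by
  split_ifs
  · exact K_le h0 h1
  · exact (K_gt h0 h1).le.trans (K_le h0 h1)

lemma kern_nonneg (ω : Env d) (n : ℕ) : ∀ x : Site d, 0 ≤ kern ε ω n x := by
  induction n with
  | zero => intro x; simp only [kern]; split_ifs <;> norm_num
  | succ n ih =>
    intro x
    rw [kern_succ]
    exact Finset.sum_nonneg (fun a _ => mul_nonneg (ih _) (h0.le.trans (w_ge h0 h1 ω _ a)))

lemma kern_le (ω : Env d) (n : ℕ) :
    ∀ x : Site d, kern ε ω n x ≤ (Fintype.card (Arrow d) : ℝ) ^ n := by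
  induction n with
  | zero => intro x; simp only [kern]; split_ifs <;> norm_num
  | succ n ih =>
    intro x
    rw [kern_succ]
    calc _ ≤ ∑ _a : Arrow d, (Fintype.card (Arrow d) : ℝ) ^ n * 1 := by
          refine Finset.sum_le_sum (fun a _ => mul_le_mul (ih _) (w_le h0 h1 ω _ a)
            (h0.le.trans (w_ge h0 h1 ω _ a)) (by positivity))
      _ = _ := by
          rw [Finset.sum_const, Finset.card_univ, nsmul_eq_mul]; ring

lemma kern_ge_step (ω : Env d) (n : ℕ) (x : Site d) (a : Arrow d) :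
    kern ε ω n (x + vec a) * ε ≤ kern ε ω (n + 1) x := by
  rw [kern_succ]
  refine le_trans ?_ (Finset.single_le_sum (f := fun a => kern ε ω n (x + vec a) *
      (if ω (x + vec a) = a then 1 - (2 * (d : ℝ) - 1) * ε else ε))
    (fun b _ => mul_nonneg (kern_nonneg h0 h1 ω n _) (h0.le.trans (w_ge h0 h1 ω _ b)))
    (Finset.mem_univ a))
  exact mul_le_mul_of_nonneg_left (w_ge h0 h1 ω _ a) (kern_nonneg h0 h1 ω n _)

lemma kern_lower (ω : Env d) (k : ℕ) :
    ε ^ (2 * k) ≤ kern ε ω (2 * k) 0 ∧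
      ∀ a : Arrow d, ε ^ (2 * k + 1) ≤ kern ε ω (2 * k + 1) (vec a) := by
  have step : ∀ k : ℕ, ε ^ (2 * k) ≤ kern ε ω (2 * k) 0 →
      ∀ a : Arrow d, ε ^ (2 * k + 1) ≤ kern ε ω (2 * k + 1) (vec a) := by
    intro k hk a
    have h := kern_ge_step h0 h1 ω (2 * k) (vec a) (opp a)
    rw [vec_opp] at h
    refine le_trans ?_ h
    rw [pow_succ]
    exact mul_le_mul_of_nonneg_right hk h0.le
  induction k with
  | zero =>
    have h : ε ^ (2 * 0) ≤ kern ε ω (2 * 0) (0 : Site d) := by simp [kern]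
    exact ⟨h, step 0 h⟩
  | succ k ih =>
    have h : ε ^ (2 * (k + 1)) ≤ kern ε ω (2 * (k + 1)) (0 : Site d) := by
      have hs := kern_ge_step h0 h1 ω (2 * k + 1) 0 ((0 : Fin d), true)
      rw [zero_add] at hs
      refine le_trans ?_ hs
      have : 2 * (k + 1) = (2 * k + 1) + 1 := by ring
      rw [this, pow_succ]
      exact mul_le_mul_of_nonneg_right (ih.2 _) h0.le
    exact ⟨h, step _ h⟩

end bounds

instance (d : ℕ) [NeZero d] : IsProbabilityMeasure (envLaw d) := by
  unfold envLaw; infer_instance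

lemma avg_ge {d : ℕ} [NeZero d] {ε : ℝ} (h0 : 0 < ε) (h1 : ε < 1 / (2 * d)) (n : ℕ)
    (x : Site d) (c : ℝ) (h : ∀ ω : Env d, c ≤ kern ε ω n x) : c ≤ avgKern d ε n x := by
  have hint : Integrable (fun ω : Env d => kern ε ω n x) (envLaw d) := by
    refine Integrable.of_bound (kern_measurable ε n x).aestronglyMeasurable
      ((Fintype.card (Arrow d) : ℝ) ^ n) (Eventually.of_forall (fun ω => ?_))
    rw [Real.norm_eq_abs, abs_of_nonneg (kern_nonneg h0 h1 ω n x)]
    exact kern_le h0 h1 ω n x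
  calc c = ∫ _ω : Env d, c ∂(envLaw d) := by simp
    _ ≤ _ := integral_mono (integrable_const c) hint h

/-- The event that the arrows at the neighbours of the origin are prescribed. -/
def nbrEvent {d : ℕ} (g : Arrow d → Arrow d) : Set (Env d) := {ω | ∀ a, ω (vec a) = g a}

lemma nbrEvent_measure {d : ℕ} [NeZero d] (g : Arrow d → Arrow d) :
    envLaw d (nbrEvent g) = (1 / (Fintype.card (Arrow d) : ℝ≥0∞)) ^ Fintype.card (Arrow d) := by
  classical
  have hset : nbrEvent g = Set.pi ((Finset.univ.image (vec : Arrow d → Site d) : Finset (Site d))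
      : Set (Site d)) (fun z => {b : Arrow d | ∀ a, vec a = z → b = g a}) := by
    ext ω
    simp only [nbrEvent, Set.mem_setOf_eq, Set.mem_pi, Finset.coe_image, Finset.coe_univ,
      Set.image_univ, Set.mem_range, forall_exists_index, forall_apply_eq_imp_iff]
    constructor
    · intro h b a hab
      rw [← hab]; exact h a
    · intro h a
      exact h a a rfl
  rw [hset, envLaw, Measure.infinitePi_pi _ (fun i _ => MeasurableSet.of_discrete),
    Finset.prod_image (fun a _ b _ h => vec_injective h)]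
  have : ∀ a : Arrow d, uniformOn (Set.univ : Set (Arrow d))
      {b : Arrow d | ∀ a', vec a' = vec a → b = g a'} =
      1 / (Fintype.card (Arrow d) : ℝ≥0∞) := by
    intro a
    have hs : {b : Arrow d | ∀ a', vec a' = vec a → b = g a'} = {g a} := by
      ext b
      simp only [Set.mem_setOf_eq, Set.mem_singleton_iff]
      constructor
      · intro h; exact h a rfl
      · intro h a' ha'; rw [vec_injective ha']; exact h
    rw [hs, uniformOn_univ, Measure.count_singleton]
  rw [Finset.prod_congr rfl (fun a _ => this a), Finset.prod_const, Finset.card_univ]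

lemma nbrEvent_real {d : ℕ} [NeZero d] (g : Arrow d → Arrow d) :
    (envLaw d).real (nbrEvent g) =
      (1 / (Fintype.card (Arrow d) : ℝ)) ^ Fintype.card (Arrow d) := by
  rw [measureReal_def, nbrEvent_measure]
  simp

/-- On an event of probability at least `c0`, avoiding `2d + 1` sets of probability less than
`c0 / (2d + 2)` is possible. -/
lemma exists_good {d : ℕ} [NeZero d] (E : Set (Env d)) (A : Arrow d → Set (Env d))
    (B : Set (Env d)) (c0 : ℝ) (hc0 : 0 < c0) (hE : c0 ≤ (envLaw d).real E)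
    (hA : ∀ a, (envLaw d).real (A a) < c0 / (Fintype.card (Arrow d) + 2))
    (hB : (envLaw d).real B < c0 / (Fintype.card (Arrow d) + 2)) :
    ∃ ω ∈ E, (∀ a, ω ∉ A a) ∧ ω ∉ B := by
  by_contra hcon
  push Not at hcon
  have hsub : E ⊆ (⋃ a ∈ (Finset.univ : Finset (Arrow d)), A a) ∪ B := by
    intro ω hω
    by_cases hall : ∀ a, ω ∉ A a
    · exact Or.inr (hcon ω hω hall)
    · push Not at hall
      obtain ⟨a, ha⟩ := hall
      exact Or.inl (Set.mem_biUnion (Finset.mem_univ a) ha)
  have h1 : (envLaw d).real E ≤ ∑ a : Arrow d, (envLaw d).real (A a) + (envLaw d).real B := by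
    calc (envLaw d).real E ≤ (envLaw d).real ((⋃ a ∈ (Finset.univ : Finset (Arrow d)), A a) ∪ B) :=
          measureReal_mono hsub
      _ ≤ (envLaw d).real (⋃ a ∈ (Finset.univ : Finset (Arrow d)), A a) + (envLaw d).real B :=
          measureReal_union_le _ _
      _ ≤ _ := by
          gcongr
          exact measureReal_biUnion_finset_le _ _
  have h2 : ∑ a : Arrow d, (envLaw d).real (A a) ≤
      Fintype.card (Arrow d) * (c0 / (Fintype.card (Arrow d) + 2)) := by
    calc _ ≤ ∑ _a : Arrow d, c0 / (Fintype.card (Arrow d) + 2 : ℝ) :=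
          Finset.sum_le_sum (fun a _ => (hA a).le)
      _ = _ := by rw [Finset.sum_const, Finset.card_univ, nsmul_eq_mul]
  have hN : (0 : ℝ) ≤ Fintype.card (Arrow d) := by positivity
  have h3 : (Fintype.card (Arrow d) : ℝ) * (c0 / (Fintype.card (Arrow d) + 2)) +
      c0 / (Fintype.card (Arrow d) + 2) < c0 := by
    have hp : (0 : ℝ) < Fintype.card (Arrow d) + 2 := by linarith
    have : (Fintype.card (Arrow d) : ℝ) * (c0 / (Fintype.card (Arrow d) + 2)) +
      c0 / (Fintype.card (Arrow d) + 2) =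
        c0 * ((Fintype.card (Arrow d) + 1) / (Fintype.card (Arrow d) + 2)) := by
      field_simp
    rw [this]
    have hlt : ((Fintype.card (Arrow d) : ℝ) + 1) / (Fintype.card (Arrow d) + 2) < 1 := by
      rw [div_lt_one hp]; linarith
    nlinarith
  linarith

lemma sum_vec_abs {d : ℕ} (a : Arrow d) : ∑ i, |vec a i| = 1 := by
  classical
  rcases a with ⟨j, b⟩
  rw [Finset.sum_eq_single j]
  · simp only [vec, Pi.single_eq_same]
    cases b <;> simp
  · intro i _ hij
    simp only [vec]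
    rw [Pi.single_eq_of_ne hij, abs_zero]
  · intro h; exact absurd (Finset.mem_univ j) h

/-- Quantitative failure of condition (ii) near the origin. -/
theorem quantitative (d : ℕ) [NeZero d] (ε : ℝ) (h0 : 0 < ε) (h1 : ε < 1 / (2 * d)) :
    ∃ δ > (0 : ℝ), ∃ c > (0 : ℝ), ∀ k : ℕ, ∃ n : ℕ, ∃ x : Site d,
      (n = 2 * k + 1 ∨ n = 2 * k + 2) ∧ ∑ i, |x i| ≤ 1 ∧ 0 < avgKern d ε n x ∧
      c ≤ (envLaw d).real (badSet d ε δ n x) := by
  classical
  set K : ℝ := 1 - (2 * d - 1) * ε with hK
  have hKε : ε < K := K_gt h0 h1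
  -- choose δ
  set δ : ℝ := min (1 / 2) ((K - ε) / (8 * (K + ε))) with hδ
  have hKpos : 0 < K := h0.trans hKε
  have hδ0 : 0 < δ := by
    rw [hδ]
    refine lt_min (by norm_num) (div_pos (by linarith) (by linarith))
  have hδ1 : δ ≤ 1 / 2 := min_le_left _ _
  have hδ2 : δ * (8 * (K + ε)) ≤ K - ε := by
    have : δ ≤ (K - ε) / (8 * (K + ε)) := min_le_right _ _
    rwa [le_div_iff₀ (by linarith)] at this
  have hkey : ε * (1 + δ) ^ 2 < (1 - δ) ^ 2 * K := by
    nlinarith [mul_pos hδ0 hKpos, mul_pos hδ0 h0, sq_nonneg δ]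
  set c0 : ℝ := (1 / (Fintype.card (Arrow d) : ℝ)) ^ Fintype.card (Arrow d) with hc0
  have hcard : 0 < (Fintype.card (Arrow d) : ℝ) := by
    exact_mod_cast Fintype.card_pos
  have hc0pos : 0 < c0 := by positivity
  refine ⟨δ, hδ0, c0 / (Fintype.card (Arrow d) + 2), by positivity, fun k => ?_⟩
  by_contra hcon
  push Not at hcon
  have hm0 : 0 < avgKern d ε (2 * k + 2) 0 :=
    lt_of_lt_of_le (pow_pos h0 (2 * (k + 1)))
      (avg_ge h0 h1 _ _ _ (fun ω => (kern_lower h0 h1 ω (k + 1)).1))
  have hma : ∀ a : Arrow d, 0 < avgKern d ε (2 * k + 1) (vec a) := fun a =>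
    lt_of_lt_of_le (pow_pos h0 (2 * k + 1))
      (avg_ge h0 h1 _ _ _ (fun ω => (kern_lower h0 h1 ω k).2 a))
  have hA : ∀ a : Arrow d, (envLaw d).real (badSet d ε δ (2 * k + 1) (vec a)) <
      c0 / (Fintype.card (Arrow d) + 2) := fun a =>
    hcon (2 * k + 1) (vec a) (Or.inl rfl) (sum_vec_abs a).le (hma a)
  have hB : (envLaw d).real (badSet d ε δ (2 * k + 2) 0) <
      c0 / (Fintype.card (Arrow d) + 2) :=
    hcon (2 * k + 2) 0 (Or.inr rfl) (by simp) hm0
  -- two environments
  obtain ⟨ω, hω, hωA, hωB⟩ := exists_good (nbrEvent (opp : Arrow d → Arrow d)) _ _ c0 hc0pos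
    (nbrEvent_real _).ge hA hB
  obtain ⟨ω', hω', hωA', hωB'⟩ := exists_good (nbrEvent (id : Arrow d → Arrow d)) _ _ c0 hc0pos
    (nbrEvent_real _).ge hA hB
  set M : ℝ := ∑ a : Arrow d, avgKern d ε (2 * k + 1) (vec a) with hM
  have hMpos : 0 < M := Finset.sum_pos (fun a _ => hma a) Finset.univ_nonempty
  have hgood : ∀ {ω : Env d} {n : ℕ} {x : Site d}, 0 < avgKern d ε n x →
      ω ∉ badSet d ε δ n x →
      (1 - δ) * avgKern d ε n x ≤ kern ε ω n x ∧ kern ε ω n x ≤ (1 + δ) * avgKern d ε n x := by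
    intro ω n x hpos hnot
    simp only [badSet, Set.mem_setOf_eq, not_lt, abs_le] at hnot
    constructor
    · have := hnot.1
      have h2 : 1 - δ ≤ kern ε ω n x / avgKern d ε n x := by linarith
      rwa [le_div_iff₀ hpos] at h2
    · have := hnot.2
      have h2 : kern ε ω n x / avgKern d ε n x ≤ 1 + δ := by linarith
      rwa [div_le_iff₀ hpos] at h2
  have e1 : kern ε ω (2 * k + 2) 0 ≤ ε * ((1 + δ) * M) := by
    rw [show 2 * k + 2 = (2 * k + 1) + 1 from rfl, kern_succ, hM, Finset.mul_sum, Finset.mul_sum]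
    refine Finset.sum_le_sum (fun a _ => ?_)
    have hωa : ω (vec a) ≠ a := by
      have := hω a
      rw [this]; exact opp_ne a
    rw [zero_add, if_neg hωa, mul_comm]
    exact mul_le_mul_of_nonneg_left (hgood (hma a) (hωA a)).2 h0.le
  have e2 : K * ((1 - δ) * M) ≤ kern ε ω' (2 * k + 2) 0 := by
    rw [show 2 * k + 2 = (2 * k + 1) + 1 from rfl, kern_succ, hM, Finset.mul_sum, Finset.mul_sum]
    refine Finset.sum_le_sum (fun a _ => ?_)
    have hωa : ω' (vec a) = a := hω' a
    rw [zero_add, if_pos hωa, mul_comm (kern ε ω' (2 * k + 1) (vec a))]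
    exact mul_le_mul_of_nonneg_left (hgood (hma a) (hωA' a)).1 hKpos.le
  have e3 := (hgood hm0 hωB).1
  have e4 := (hgood hm0 hωB').2
  set m := avgKern d ε (2 * k + 2) 0
  have f1 : (1 - δ) * m ≤ ε * ((1 + δ) * M) := e3.trans e1
  have f2 : K * ((1 - δ) * M) ≤ (1 + δ) * m := e2.trans e4
  have g1 : (1 - δ) * (K * ((1 - δ) * M)) ≤ (1 - δ) * ((1 + δ) * m) :=
    mul_le_mul_of_nonneg_left f2 (by linarith)
  have g2 : (1 + δ) * ((1 - δ) * m) ≤ (1 + δ) * (ε * ((1 + δ) * M)) :=
    mul_le_mul_of_nonneg_left f1 (by linarith)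
  have g3 : ((1 - δ) ^ 2 * K) * M ≤ (ε * (1 + δ) ^ 2) * M := by nlinarith
  have g4 := (mul_le_mul_iff_left₀ hMpos).1 g3
  linarith

/-- **Main result.** For every `d ≥ 1` and every `ε ∈ (0, 1/(2d))` the unit-arrow model does not
homogenize in the sense of the problem: condition (ii) fails.  Quantitatively there are
`δ, c > 0` such that for every `k`, for one of the times `n ∈ {2k+1, 2k+2}` and one of the sites
`|x| ≤ 1` with `m_1(n,x) > 0`, the ratio `p_ω(n,x)/m_1(n,x)` differs from `1` by more than `δ`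
with `μ`-probability at least `c`. -/
theorem result (d : ℕ) [NeZero d] (ε : ℝ) (h0 : 0 < ε) (h1 : ε < 1 / (2 * d)) :
    (∃ δ > (0 : ℝ), ∃ c > (0 : ℝ), ∀ k : ℕ, ∃ n : ℕ, ∃ x : Site d,
      (n = 2 * k + 1 ∨ n = 2 * k + 2) ∧ ∑ i, |x i| ≤ 1 ∧ 0 < avgKern d ε n x ∧
      c ≤ (envLaw d).real (badSet d ε δ n x)) ∧
    ¬ KernelRatio d ε ∧ ¬ Homogenizes d ε := by
  have hq := quantitative d ε h0 h1
  have hii : ¬ KernelRatio d ε := by
    intro hR
    obtain ⟨δ, hδ, c, hc, hk⟩ := hq
    have hlim := hR 1 one_pos δ hδ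
    have hev := (tendsto_order.1 hlim).2 (ENNReal.ofReal c) (ENNReal.ofReal_pos.2 hc)
    obtain ⟨N, hN⟩ := eventually_atTop.1 hev
    obtain ⟨n, x, hn, hx, hpos, hcx⟩ := hk N
    have hnN : N ≤ n := by omega
    have hn1 : 1 ≤ n := by omega
    have hlt := hN n hnN
    have hmem : x ∈ {x : Site d | √(∑ i, (x i : ℝ) ^ 2) ≤ 1 * √(n : ℝ) ∧
        0 < avgKern d ε n x} := by
      refine ⟨?_, hpos⟩
      rw [one_mul]
      apply Real.sqrt_le_sqrt
      have hone : (∑ i, (x i : ℝ) ^ 2) ≤ 1 := by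
        have hle : ∀ i, |x i| ≤ 1 := fun i =>
          (Finset.single_le_sum (f := fun i => |x i|) (fun j _ => abs_nonneg _)
            (Finset.mem_univ i)).trans hx
        have : ∑ i, (x i) ^ 2 ≤ ∑ i, |x i| := by
          refine Finset.sum_le_sum (fun i _ => ?_)
          rw [← sq_abs]
          nlinarith [hle i, abs_nonneg (x i)]
        exact_mod_cast this.trans hx
      refine hone.trans ?_
      exact_mod_cast hn1
    have hsup : envLaw d (badSet d ε δ n x) ≤
        ⨆ x ∈ {x : Site d | √(∑ i, (x i : ℝ) ^ 2) ≤ 1 * √(n : ℝ) ∧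
        0 < avgKern d ε n x}, envLaw d (badSet d ε δ n x) :=
      le_iSup₂_of_le x hmem le_rfl
    have hlt2 : envLaw d (badSet d ε δ n x) < ENNReal.ofReal c := lt_of_le_of_lt hsup hlt
    have h3 : ENNReal.ofReal c ≤ envLaw d (badSet d ε δ n x) := by
      rw [measureReal_def] at hcx
      exact (ENNReal.ofReal_le_iff_le_toReal (measure_ne_top _ _)).2 hcx
    exact absurd (lt_of_lt_of_le hlt2 h3) (lt_irrefl _)
  exact ⟨hq, hii, fun h => hii h.2⟩

end Pool.Agent.Results.MP_31ab2b_pr.PointwiseKernelRatio
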